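import Pool.Agent.TH609.E3.Stm

set_option autoImplicit false

open Polynomial Pool.Agent.H337R2 Pool.Agent.TH609.E3

namespace Pool.Agent.TH609.E3.W337

/-- product of pairs of first two coefficients -/
def dm (p q : ℚ × ℚ) : ℚ × ℚ := (p.1 * q.1, p.1 * q.2 + p.2 * q.1)

def Is (f : PowerSeries ℚ) (p : ℚ × ℚ) : Prop :=
  PowerSeries.coeff 0 f = p.1 ∧ PowerSeries.coeff 1 f = p.2

lemma Is.mul {f g : PowerSeries ℚ} {p q : ℚ × ℚ} (hf : Is f p) (hg : Is g q) :
    Is (f * g) (dm p q) := by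
  obtain ⟨h1, h2⟩ := hf
  obtain ⟨h3, h4⟩ := hg
  refine ⟨?_, ?_⟩
  · rw [PowerSeries.coeff_mul]
    simp [dm, h1, h3]
  · rw [PowerSeries.coeff_mul]
    have : Finset.HasAntidiagonal.antidiagonal (1 : ℕ) = {(0, 1), (1, 0)} := rfl
    rw [this, Finset.sum_insert (by decide), Finset.sum_singleton]
    simp only [dm]
    rw [h1, h2, h3, h4]

lemma Is.one : Is 1 (1, 0) := by
  refine ⟨?_, ?_⟩
  · simp
  · simp [PowerSeries.coeff_one]

lemma Is.lin (u : ℚ) : Is (PowerSeries.X + PowerSeries.C u) (u, 1) := by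
  refine ⟨?_, ?_⟩
  · simp
  · simp

lemma Is.iv (u : ℚ) : Is (iv u) (1 / u, -(1 / u ^ 2)) := by
  refine ⟨?_, ?_⟩
  · simp [Pool.Agent.H337R2.iv]
  · simp [Pool.Agent.H337R2.iv, neg_div]

lemma Is.sq {f : PowerSeries ℚ} {p : ℚ × ℚ} (hf : Is f p) : Is (f ^ 2) (dm p p) := by
  rw [pow_two]
  exact hf.mul hf

def dpow (p : ℚ × ℚ) : ℕ → ℚ × ℚ
  | 0 => (1, 0)
  | n + 1 => dm (dpow p n) p

lemma Is.pow {f : PowerSeries ℚ} {p : ℚ × ℚ} (hf : Is f p) (n : ℕ) : Is (f ^ n) (dpow p n) := by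
  induction n with
  | zero => rw [pow_zero]; exact Is.one
  | succ n ih => rw [pow_succ]; exact ih.mul hf

def dprod (P : ℕ → ℚ × ℚ) : List ℕ → ℚ × ℚ
  | [] => (1, 0)
  | a :: l => dm (P a) (dprod P l)

lemma Is.list (F : ℕ → PowerSeries ℚ) (P : ℕ → ℚ × ℚ) (h : ∀ a, Is (F a) (P a)) (l : List ℕ) :
    Is (l.map F).prod (dprod P l) := by
  induction l with
  | nil => exact Is.one
  | cons a l ih =>
    rw [List.map_cons, List.prod_cons]
    exact (h a).mul ih

def lst (j : ℕ) : List ℕ := [4, 5, 6, 7, 8, 9, 10, 11].filter (fun b => b ≠ j)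

/-- the first two coefficients of `ser j e` -/
def cs (j e : ℕ) : ℚ × ℚ :=
  dm (dm (dm (dprod (fun a => dm ((a : ℚ) - j, 1) ((a : ℚ) - j, 1)) [0, 1, 2])
    (dprod (fun a => ((a : ℚ) - j, 1)) [3, 4]))
    (dprod (fun b => dm (1 / ((b : ℚ) - j), -(1 / ((b : ℚ) - j) ^ 2))
      (1 / ((b : ℚ) - j), -(1 / ((b : ℚ) - j) ^ 2))) (lst j)))
    (dpow (-(j : ℚ), 1) e)

lemma erase_eq (j : ℕ) : (Finset.Icc 4 11).erase j = (lst j).toFinset := by
  ext b
  simp only [Finset.mem_erase, Finset.mem_Icc, lst, List.mem_toFinset, List.mem_filter,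
    List.mem_cons, List.not_mem_nil, or_false, decide_eq_true_eq]
  constructor
  · rintro ⟨h1, h2, h3⟩
    exact ⟨by omega, h1⟩
  · rintro ⟨h1, h2⟩
    exact ⟨h2, by omega, by omega⟩

lemma lst_nodup (j : ℕ) : (lst j).Nodup := by
  unfold lst
  exact List.Nodup.filter _ (by decide)

lemma ser_is (j e : ℕ) : Is (ser j e) (cs j e) := by
  unfold ser cs
  refine Is.mul (Is.mul (Is.mul ?_ ?_) ?_) ?_
  · have h1 : Finset.range 3 = [0, 1, 2].toFinset := by decide
    rw [h1, List.prod_toFinset _ (by decide)]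
    exact Is.list _ _ (fun a => (Is.lin _).sq) _
  · have h1 : (Finset.Icc 3 4 : Finset ℕ) = [3, 4].toFinset := by decide
    rw [h1, List.prod_toFinset _ (by decide)]
    exact Is.list _ _ (fun a => Is.lin _) _
  · rw [erase_eq, List.prod_toFinset _ (lst_nodup j)]
    exact Is.list _ _ (fun a => (Is.iv _).sq) _
  · exact (Is.lin _).pow e

def H (e m : ℕ) : ℚ := ((List.range m).map fun l : ℕ => 1 / ((l : ℚ) + 1) ^ e).sum

lemma hs_eq (e m : ℕ) : hs e m = H e m := by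
  unfold hs H
  rw [← List.sum_toFinset _ (List.nodup_range)]
  congr 1
  ext a
  simp

def cF (e : ℕ) : ℚ := -(([4, 5, 6, 7, 8, 9, 10, 11] : List ℕ).map fun j =>
  2 * (cs j e).1 * H 3 (j - 3) + (cs j e).2 * H 2 (j - 3)).sum

def cR (e : ℕ) : ℚ := 2 * (([4, 5, 6, 7, 8, 9, 10, 11] : List ℕ).map fun j => (cs j e).1).sum

lemma Fm_eq (e : ℕ) : Fm e = cF e := by
  unfold Fm cF
  have h1 : (Finset.Icc 4 11 : Finset ℕ) = [4, 5, 6, 7, 8, 9, 10, 11].toFinset := by decide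
  rw [h1, List.sum_toFinset _ (by decide)]
  congr 3
  funext j
  rw [(ser_is j e).1, (ser_is j e).2, hs_eq, hs_eq]

lemma rm_eq (e : ℕ) : rm e = cR e := by
  unfold rm cR
  have h1 : (Finset.Icc 4 11 : Finset ℕ) = [4, 5, 6, 7, 8, 9, 10, 11].toFinset := by decide
  rw [h1, List.sum_toFinset _ (by decide)]
  congr 3
  funext j
  rw [(ser_is j e).1]

lemma cF0 : cF 0 = -1121715330726281 / 1493614080000 := by decide +kernel
lemma cF1 : cF 1 = 9671130080207899 / 1493614080000 := by decide +kernel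
lemma cF2 : cF 2 = -84210085857138641 / 1493614080000 := by decide +kernel
lemma cF3 : cF 3 = 740258323402378099 / 1493614080000 := by decide +kernel
lemma cF4 : cF 4 = -6567220201742862041 / 1493614080000 := by decide +kernel
lemma cF5 : cF 5 = 58777654973254172299 / 1493614080000 := by decide +kernel
lemma cF6 : cF 6 = -530560456789135735841 / 1493614080000 := by decide +kernel
lemma cR0 : cR 0 = 1574417 / 2520 := by decide +kernel
lemma cR1 : cR 1 = -13574203 / 2520 := by decide +kernel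
lemma cR2 : cR 2 = 118195577 / 2520 := by decide +kernel
lemma cR3 : cR 3 = -1039011643 / 2520 := by decide +kernel
lemma cR4 : cR 4 = 9217617737 / 2520 := by decide +kernel
lemma cR5 : cR 5 = -82499130283 / 2520 := by decide +kernel
lemma cR6 : cR 6 = 744683949497 / 2520 := by decide +kernel

/-- the determinant of a `4 × 4` Hankel matrix -/
lemma det4 (x : ℕ → ℚ) : (Matrix.of fun i j : Fin 4 => x (i.1 + j.1)).det =
    x 0 * (x 2 * (x 4 * x 6 - x 5 ^ 2) - x 3 * (x 3 * x 6 - x 5 * x 4) + x 4 * (x 3 * x 5 - x 4 ^ 2)) -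
    x 1 * (x 1 * (x 4 * x 6 - x 5 ^ 2) - x 3 * (x 2 * x 6 - x 5 * x 3) + x 4 * (x 2 * x 5 - x 4 * x 3)) +
    x 2 * (x 1 * (x 3 * x 6 - x 5 * x 4) - x 2 * (x 2 * x 6 - x 5 * x 3) + x 4 * (x 2 * x 4 - x 3 ^ 2)) -
    x 3 * (x 1 * (x 3 * x 5 - x 4 ^ 2) - x 2 * (x 2 * x 5 - x 4 * x 3) + x 3 * (x 2 * x 4 - x 3 ^ 2)) := by
  simp [Matrix.det_succ_row_zero, Fin.sum_univ_succ, Fin.succAbove]
  ring

/-- the explicit form -/
lemma form_eq (a b : ℚ) : LD a b = (1 / 28234613221549056000000000000 : ℚ) *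
    ∑ i ∈ Finset.range 5, (q4 i : ℚ) * a ^ (4 - i) * b ^ i := by
  unfold LD
  rw [det4 (fun k => a * Fm k + b * rm k)]
  simp only [Fm_eq, rm_eq, cF0, cF1, cF2, cF3, cF4, cF5, cF6, cR0, cR1, cR2, cR3, cR4, cR5, cR6,
    Finset.sum_range_succ, Finset.sum_range_zero, q4]
  push_cast
  ring

theorem H5 : StH5 := ⟨1 / 28234613221549056000000000000, by norm_num, form_eq⟩

/-- the integral form has no nontrivial zero modulo `p` -/
lemma int_form {p : ℕ} [hp : Fact p.Prime] (hp0 : 10 ^ 45 ≤ p) (hg : Good p) (m n : ℤ)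
    (hmn : ¬ ((p : ℤ) ∣ m ∧ (p : ℤ) ∣ n)) :
    ¬ (p : ℤ) ∣ ∑ i ∈ Finset.range 5, q4 i * m ^ (4 - i) * n ^ i := by
  intro hdvd
  have hpz : Prime (p : ℤ) := Nat.prime_iff_prime_int.1 hp.out
  by_cases hm : (p : ℤ) ∣ m
  · have hn : ¬ (p : ℤ) ∣ n := fun h => hmn ⟨hm, h⟩
    obtain ⟨u, rfl⟩ := hm
    have h1 : (p : ℤ) ∣ q4 4 * n ^ 4 := by
      have e : q4 4 * n ^ 4 = (∑ i ∈ Finset.range 5, q4 i * ((p : ℤ) * u) ^ (4 - i) * n ^ i) -
          (p : ℤ) * (q4 0 * (p : ℤ) ^ 3 * u ^ 4 + q4 1 * (p : ℤ) ^ 2 * u ^ 3 * n +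
            q4 2 * (p : ℤ) * u ^ 2 * n ^ 2 + q4 3 * u * n ^ 3) := by
        simp only [Finset.sum_range_succ, Finset.sum_range_zero]
        ring
      rw [e]
      exact dvd_sub hdvd (dvd_mul_right _ _)
    rcases hpz.dvd_or_dvd h1 with h2 | h2
    · have h3 := Int.le_of_dvd (by norm_num [q4]) h2
      have h4 : ((10 ^ 45 : ℕ) : ℤ) ≤ p := by exact_mod_cast hp0
      norm_num [q4] at h3 h4
      omega
    · exact hn (hpz.dvd_of_dvd_pow h2)
  · have hcop : IsCoprime (p : ℤ) m := (Prime.coprime_iff_not_dvd hpz).2 hm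
    obtain ⟨c, d, hcd⟩ := hcop
    apply hg.2 (n * d)
    have hpm : ¬ (p : ℤ) ∣ m ^ 4 := fun h => hm (hpz.dvd_of_dvd_pow h)
    have h1 : (p : ℤ) ∣ m ^ 4 * ∑ i ∈ Finset.range 5, q4 i * (n * d) ^ i := by
      have hmd : m * d = 1 - p * c := by linarith
      have key : ∀ i, i ≤ 4 → (p : ℤ) ∣ m ^ 4 * (q4 i * (n * d) ^ i) - q4 i * m ^ (4 - i) * n ^ i := by
        intro i hi
        have e1 : m ^ 4 * (q4 i * (n * d) ^ i) - q4 i * m ^ (4 - i) * n ^ i =
            q4 i * m ^ (4 - i) * n ^ i * ((m * d) ^ i - 1) := by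
          have : m ^ 4 = m ^ (4 - i) * m ^ i := by rw [← pow_add]; congr 1; omega
          rw [this, mul_pow, mul_pow]
          ring
        rw [e1, hmd]
        refine Dvd.dvd.mul_left ?_ _
        have h5 : (1 - (p : ℤ) * c) - 1 ∣ (1 - (p : ℤ) * c) ^ i - 1 := by
          simpa using sub_dvd_pow_sub_pow (1 - (p : ℤ) * c) 1 i
        refine dvd_trans ?_ h5
        exact ⟨-c, by ring⟩
      have h2 : m ^ 4 * ∑ i ∈ Finset.range 5, q4 i * (n * d) ^ i =
          (∑ i ∈ Finset.range 5, q4 i * m ^ (4 - i) * n ^ i) +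
          ∑ i ∈ Finset.range 5, (m ^ 4 * (q4 i * (n * d) ^ i) - q4 i * m ^ (4 - i) * n ^ i) := by
        rw [Finset.mul_sum, ← Finset.sum_add_distrib]
        exact Finset.sum_congr rfl fun i _ => by ring
      rw [h2]
      refine dvd_add hdvd (Finset.dvd_sum fun i hi => key i ?_)
      rw [Finset.mem_range] at hi
      omega
    exact (hpz.dvd_or_dvd h1).resolve_left hpm

lemma den_not_dvd {p : ℕ} [hp : Fact p.Prime] {a : ℚ} (h : padicNorm p a ≤ 1) :
    ¬ (p : ℤ) ∣ (a.den : ℤ) := by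
  intro hd
  have hpp : (p : ℤ) ∣ a.num → False := by
    intro hn
    have h1 : p ∣ a.num.natAbs := Int.natCast_dvd.1 hn
    have h2 : p ∣ a.den := by exact_mod_cast hd
    have h3 := Nat.dvd_gcd h1 h2
    have h4 : a.num.natAbs.gcd a.den = 1 := a.reduced
    rw [h4] at h3
    exact hp.out.one_lt.ne' (Nat.dvd_one.1 h3)
  have hnum : padicNorm p (a.num : ℚ) = 1 := padicNorm.int_eq_one_iff _ |>.2 hpp
  have hden : padicNorm p ((a.den : ℤ) : ℚ) < 1 := (padicNorm.int_lt_one_iff _).2 hd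
  have hden0 : (a.den : ℚ) ≠ 0 := by exact_mod_cast a.den_nz
  have h5 : (a.num : ℚ) = a * ((a.den : ℤ) : ℚ) := by
    rw [Int.cast_natCast]
    exact (Rat.mul_den_eq_num a).symm
  rw [h5, padicNorm.mul] at hnum
  have h6 : padicNorm p a * padicNorm p ((a.den : ℤ) : ℚ) < 1 := by
    calc padicNorm p a * padicNorm p ((a.den : ℤ) : ℚ) ≤ 1 * padicNorm p ((a.den : ℤ) : ℚ) :=
          mul_le_mul_of_nonneg_right h (padicNorm.nonneg _)
      _ < 1 := by rw [one_mul]; exact hden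
  exact h6.ne hnum

theorem H5' : StH5' := by
  refine ⟨10 ^ 45, fun p hp0 hg a b ha hb hab => ?_⟩
  have hpp := hg.1
  have hp : Fact p.Prime := ⟨hpp⟩
  rw [form_eq, padicNorm.mul]
  have hda := den_not_dvd ha
  have hdb := den_not_dvd hb
  have hda0 : (a.den : ℚ) ≠ 0 := by exact_mod_cast a.den_nz
  have hdb0 : (b.den : ℚ) ≠ 0 := by exact_mod_cast b.den_nz
  have hpz : Prime (p : ℤ) := Nat.prime_iff_prime_int.1 hpp
  -- the constant is a unit
  have hk : padicNorm p (1 / 28234613221549056000000000000 : ℚ) = 1 := by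
    have h1 : padicNorm p ((28234613221549056000000000000 : ℤ) : ℚ) = 1 := by
      rw [padicNorm.int_eq_one_iff]
      intro hd
      have := Int.le_of_dvd (by norm_num) hd
      have h2 : ((10 ^ 45 : ℕ) : ℤ) ≤ p := by exact_mod_cast hp0
      norm_num at h2
      omega
    rw [padicNorm.div, padicNorm.one]
    have h3 : ((28234613221549056000000000000 : ℤ) : ℚ) = 28234613221549056000000000000 := by norm_num
    rw [h3] at h1
    rw [h1, div_one]
  rw [hk, one_mul]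
  -- integers
  set d : ℤ := (a.den : ℤ) * b.den with hd
  set m : ℤ := a.num * b.den with hm
  set n : ℤ := b.num * a.den with hn
  have hdp : padicNorm p (d : ℚ) = 1 := by
    rw [padicNorm.int_eq_one_iff]
    intro h
    rcases hpz.dvd_or_dvd h with h1 | h1
    · exact hda h1
    · exact hdb h1
  have ham : a * d = m := by
    rw [hd, hm]
    push_cast
    rw [← mul_assoc, Rat.mul_den_eq_num]
  have hbn : b * d = n := by
    rw [hd, hn]
    push_cast
    rw [mul_comm (a.den : ℚ), ← mul_assoc, Rat.mul_den_eq_num]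
  have hmn : ¬ ((p : ℤ) ∣ m ∧ (p : ℤ) ∣ n) := by
    rintro ⟨h1, h2⟩
    have h3 : padicNorm p (m : ℚ) < 1 := (padicNorm.int_lt_one_iff _).2 h1
    have h4 : padicNorm p (n : ℚ) < 1 := (padicNorm.int_lt_one_iff _).2 h2
    rw [← ham, padicNorm.mul, hdp, mul_one] at h3
    rw [← hbn, padicNorm.mul, hdp, mul_one] at h4
    rcases hab with h5 | h5
    · exact h3.ne h5
    · exact h4.ne h5
  have hI := int_form hp0 hg m n hmn
  rw [← padicNorm.int_eq_one_iff] at hI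
  have e : ((∑ i ∈ Finset.range 5, q4 i * m ^ (4 - i) * n ^ i : ℤ) : ℚ) =
      (∑ i ∈ Finset.range 5, (q4 i : ℚ) * a ^ (4 - i) * b ^ i) * ((d : ℚ) * d * (d * d)) := by
    push_cast
    rw [← ham, ← hbn, Finset.sum_mul]
    refine Finset.sum_congr rfl fun i hi => ?_
    rw [Finset.mem_range] at hi
    have h4 : (d : ℚ) * d * (d * d) = (d : ℚ) ^ (4 - i) * (d : ℚ) ^ i := by
      rw [← pow_add, Nat.sub_add_cancel (by omega)]
      ring
    rw [h4, mul_pow, mul_pow]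
    ring
  rw [e, padicNorm.mul, padicNorm.mul, padicNorm.mul, hdp, mul_one, mul_one, mul_one] at hI
  exact hI

end Pool.Agent.TH609.E3.W337
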